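import Pool.Agent.Lib.H85TF.P2

/-!
# H32L5, file A: covers by cycles of length at least five; a path of length at least four with adjacent ends
-/

set_option autoImplicit false

namespace H32L5

open Finset H98M H85TF

variable {V : Type*} [DecidableEq V]

/-- `A` is covered by pairwise disjoint cycles of length at least five. -/
def Cov5 (E : Finset (Sym2 V)) (A : Finset V) : Prop :=
  ∃ F ⊆ E, (∀ v, dg F v = 0 ∨ dg F v = 2) ∧
    (∀ x y z, s(x, y) ∈ F → s(y, z) ∈ F → s(x, z) ∉ F) ∧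
    (∀ x y z w, x ≠ z → y ≠ w → s(x, y) ∈ F → s(y, z) ∈ F → s(z, w) ∈ F → s(w, x) ∉ F) ∧
    ∀ v ∈ A, dg F v = 2

/-- neighbours in the cycle of the numbers `0..n` -/
def R (n i j : ℕ) : Prop := j = i + 1 ∨ i = j + 1 ∨ (i = 0 ∧ j = n) ∨ (i = n ∧ j = 0)

theorem R3 {n i j k : ℕ} (hn : 4 ≤ n) (hi : i ≤ n) (hj : j ≤ n) (hk : k ≤ n) (h1 : R n i j)
    (h2 : R n j k) (h3 : R n i k) : False := by
  unfold R at *
  omega

theorem R4 {n i j k l : ℕ} (hn : 4 ≤ n) (hi : i ≤ n) (hj : j ≤ n) (hk : k ≤ n) (hl : l ≤ n)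
    (hik : i ≠ k) (hjl : j ≠ l) (h1 : R n i j) (h2 : R n j k) (h3 : R n k l) (h4 : R n l i) :
    False := by
  unfold R at *
  omega

/-- successor in the cycle -/
def sc (n i : ℕ) : ℕ := if i = n then 0 else i + 1

theorem sc_le {n i : ℕ} (h : i ≤ n) : sc n i ≤ n := by
  unfold sc
  split_ifs <;> omega

/-- A path of length at least four with adjacent ends. -/
theorem cyc5 {E : Finset (Sym2 V)} {x y : V}
    (p : (SimpleGraph.fromEdgeSet (E : Set (Sym2 V))).Walk x y) (hp : p.IsPath)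
    (h4 : 4 ≤ p.length) (he : s(x, y) ∈ E) {v : V} (hv : v ∈ p.support) : Cov5 E {v} := by
  classical
  obtain ⟨n, hn⟩ : ∃ n, n = p.length := ⟨_, rfl⟩
  obtain ⟨f, hf⟩ : ∃ f : ℕ → V, f = p.getVert := ⟨_, rfl⟩
  have hinj : ∀ i ≤ n, ∀ j ≤ n, f i = f j → i = j := by
    intro i hi j hj h
    rw [hf] at h
    exact hp.getVert_injOn (by simpa [hn] using hi) (by simpa [hn] using hj) h
  have hf0 : f 0 = x := by rw [hf]; exact p.getVert_zero
  have hfn : f n = y := by rw [hf, hn]; exact p.getVert_length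
  obtain ⟨F, hF⟩ : ∃ F : Finset (Sym2 V), F = (range (n + 1)).image fun i => s(f i, f (sc n i)) :=
    ⟨_, rfl⟩
  have hmem : ∀ a b, s(a, b) ∈ F → ∃ i j, i ≤ n ∧ j ≤ n ∧ a = f i ∧ b = f j ∧ R n i j := by
    intro a b h
    rw [hF, mem_image] at h
    obtain ⟨i, hi, h⟩ := h
    have hi' : i ≤ n := by
      have := mem_range.1 hi
      omega
    have hR : R n i (sc n i) ∧ R n (sc n i) i := by
      unfold R sc
      split_ifs <;> omega
    rw [Sym2.eq_iff] at h
    rcases h with ⟨h1, h2⟩ | ⟨h1, h2⟩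
    · exact ⟨i, sc n i, hi', sc_le hi', h1.symm, h2.symm, hR.1⟩
    · exact ⟨sc n i, i, sc_le hi', hi', h2.symm, h1.symm, hR.2⟩
  have hdeg : ∀ j ≤ n, dg F (f j) = 2 := by
    intro j hj
    obtain ⟨q, hq, hqj, hqs⟩ : ∃ q, q ≤ n ∧ sc n q = j ∧ sc n j ≠ q := by
      by_cases h0 : j = 0
      · refine ⟨n, le_rfl, ?_, ?_⟩
        · unfold sc; simp [h0]
        · unfold sc; split_ifs <;> omega
      · refine ⟨j - 1, by omega, ?_, ?_⟩
        · unfold sc; split_ifs <;> omega
        · unfold sc; split_ifs <;> omega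
    have h1 : F.filter (fun e => f j ∈ e) = {s(f j, f (sc n j)), s(f q, f j)} := by
      ext e
      rw [mem_filter, mem_insert, mem_singleton]
      constructor
      · rintro ⟨h2, h3⟩
        rw [hF, mem_image] at h2
        obtain ⟨i, hi, rfl⟩ := h2
        have hi' : i ≤ n := by
          have := mem_range.1 hi
          omega
        rw [Sym2.mem_iff] at h3
        rcases h3 with h3 | h3
        · left
          rw [hinj j hj i hi' h3]
        · right
          have h4 : j = sc n i := hinj j hj _ (sc_le hi') h3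
          have h5 : i = q := by
            unfold sc at h4 hqj
            split_ifs at h4 hqj <;> omega
          rw [h5, hqj]
      · rintro (rfl | rfl)
        · refine ⟨?_, by simp⟩
          rw [hF, mem_image]
          exact ⟨j, mem_range.2 (by omega), rfl⟩
        · refine ⟨?_, by simp⟩
          rw [hF, mem_image]
          exact ⟨q, mem_range.2 (by omega), by rw [hqj]⟩
    unfold dg
    rw [h1, card_pair]
    intro h2
    rw [Sym2.eq_iff] at h2
    rcases h2 with ⟨h2, h3⟩ | ⟨h2, h3⟩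
    · have h4 := hinj j hj q hq h2
      have h5 := hinj _ (sc_le hj) j hj h3
      unfold sc at h5
      split_ifs at h5 <;> omega
    · exact hqs (hinj _ (sc_le hj) q hq h3)
  refine ⟨F, ?_, ?_, ?_, ?_, ?_⟩
  · intro e h
    rw [hF, mem_image] at h
    obtain ⟨i, hi, rfl⟩ := h
    have hi' : i ≤ n := by
      have := mem_range.1 hi
      omega
    by_cases h1 : i = n
    · have h2 : sc n i = 0 := by unfold sc; simp [h1]
      rw [h2, h1, hf0, hfn, Sym2.eq_swap]
      exact he
    · have h2 : sc n i = i + 1 := by unfold sc; simp [h1]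
      rw [h2, hf]
      have h3 := p.adj_getVert_succ (i := i) (by omega)
      rw [SimpleGraph.fromEdgeSet_adj] at h3
      exact_mod_cast h3.1
  · intro w
    by_cases hw : ∃ j ≤ n, w = f j
    · obtain ⟨j, hj, rfl⟩ := hw
      exact Or.inr (hdeg j hj)
    · left
      unfold dg
      rw [card_eq_zero, filter_eq_empty_iff]
      intro e h1 h2
      induction e with
      | h a b =>
        obtain ⟨i, j, hi, hj, h3, h4, -⟩ := hmem a b h1
        rw [Sym2.mem_iff] at h2
        rcases h2 with h2 | h2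
        · exact hw ⟨i, hi, h2.trans h3⟩
        · exact hw ⟨j, hj, h2.trans h4⟩
  · intro a b c h1 h2 h3
    obtain ⟨i, j, hi, hj, rfl, rfl, r1⟩ := hmem a b h1
    obtain ⟨j', k, hj', hk, e1, rfl, r2⟩ := hmem _ c h2
    obtain ⟨i', k', hi', hk', e2, e3, r3⟩ := hmem _ _ h3
    have e1' := hinj _ hj _ hj' e1
    have e2' := hinj _ hi _ hi' e2
    have e3' := hinj _ hk _ hk' e3
    subst e1' e2' e3'
    exact R3 (by omega) hi hj hk r1 r2 r3
  · intro a b c d hac hbd h1 h2 h3 h5
    obtain ⟨i, j, hi, hj, rfl, rfl, r1⟩ := hmem a b h1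
    obtain ⟨j', k, hj', hk, e1, rfl, r2⟩ := hmem _ c h2
    obtain ⟨k', l, hk', hl, e2, rfl, r3⟩ := hmem _ d h3
    obtain ⟨l', i', hl', hi', e3, e4, r4⟩ := hmem _ _ h5
    have e1' := hinj _ hj _ hj' e1
    have e2' := hinj _ hk _ hk' e2
    have e3' := hinj _ hl _ hl' e3
    have e4' := hinj _ hi _ hi' e4
    subst e1' e2' e3' e4'
    exact R4 (by omega) hi hj hk hl (fun e => hac (by rw [e])) (fun e => hbd (by rw [e])) r1 r2 r3 r4
  · intro w hw
    rw [mem_singleton.1 hw]
    obtain ⟨j, h1, h2⟩ := SimpleGraph.Walk.mem_support_iff_exists_getVert.1 hv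
    rw [← h1, ← hf]
    exact hdeg j (by omega)

end H32L5
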