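import Pool.Agent.Lib.H32L5.A

/-!
# H32L5, file B: closing cycles through a piece outside
-/

set_option autoImplicit false
set_option linter.unusedSectionVars false
set_option linter.unusedSimpArgs false

namespace H32L5

open Finset H98M H85TF

variable {V : Type*} [DecidableEq V]

theorem adj_of {E : Finset (Sym2 V)} (hE : ∀ e ∈ E, ¬ e.IsDiag) {x y : V} (h : s(x, y) ∈ E) :
    (SimpleGraph.fromEdgeSet (E : Set (Sym2 V))).Adj x y := by
  rw [SimpleGraph.fromEdgeSet_adj]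
  exact ⟨by exact_mod_cast h, fun e => hE _ h (by simpa using e)⟩

theorem ne_of {E : Finset (Sym2 V)} (hE : ∀ e ∈ E, ¬ e.IsDiag) {x y : V} (h : s(x, y) ∈ E) :
    x ≠ y := fun e => hE _ h (by simpa using e)

/-- `x - k .. k' - y`, an arc `x - a - b - y`. -/
theorem lemA {E : Finset (Sym2 V)} (hE : ∀ e ∈ E, ¬ e.IsDiag) {x a b y k k' : V}
    (hxa : s(x, a) ∈ E) (hab : s(a, b) ∈ E) (hby : s(b, y) ∈ E) (hxb : x ≠ b) (hxy : x ≠ y)
    (hay : a ≠ y) (hxk : s(x, k) ∈ E) (hyk : s(y, k') ∈ E)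
    (P : (SimpleGraph.fromEdgeSet (E : Set (Sym2 V))).Walk k k') (hP : P.IsPath)
    (hin : ∀ r ∈ P.support, r ≠ x ∧ r ≠ a ∧ r ≠ b ∧ r ≠ y) {v : V}
    (hv : v = x ∨ v = a ∨ v = b ∨ v = y) : Cov5 E {v} := by
  have a1 := adj_of hE hab
  have a2 := adj_of hE hxa
  have a3 := adj_of hE hxk
  have a4 := adj_of hE hyk
  have n1 := ne_of hE hab
  have n2 := ne_of hE hxa
  have n3 := ne_of hE hby
  refine cyc5 (SimpleGraph.Walk.cons a1.symm (SimpleGraph.Walk.cons a2.symm
    (SimpleGraph.Walk.cons a3 (P.concat a4.symm)))) ?_ ?_ hby ?_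
  · rw [SimpleGraph.Walk.cons_isPath_iff, SimpleGraph.Walk.cons_isPath_iff,
      SimpleGraph.Walk.cons_isPath_iff]
    simp only [SimpleGraph.Walk.support_cons, SimpleGraph.Walk.support_concat, List.mem_cons,
      List.mem_append, List.mem_nil_iff, or_false, List.mem_singleton]
    refine ⟨⟨⟨hP.concat (fun h => (hin y h).2.2.2 rfl) a4.symm, ?_⟩, ?_⟩, ?_⟩
    · rintro (h | h)
      · exact (hin x h).1 rfl
      · exact hxy h
    · rintro (h | h | h)
      · exact n2 h.symm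
      · exact (hin a h).2.1 rfl
      · exact hay h
    · rintro (h | h | h | h)
      · exact n1 h.symm
      · exact hxb h.symm
      · exact (hin b h).2.2.1 rfl
      · exact n3 h
  · simp only [SimpleGraph.Walk.length_cons, SimpleGraph.Walk.length_concat]
    omega
  · simp only [SimpleGraph.Walk.support_cons, SimpleGraph.Walk.support_concat, List.mem_cons,
      List.mem_append, List.mem_nil_iff, or_false, List.mem_singleton]
    tauto

/-- `x - k .. k' - y` with `k ≠ k'`, an arc `x - a - y`. -/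
theorem lemB {E : Finset (Sym2 V)} (hE : ∀ e ∈ E, ¬ e.IsDiag) {x a y k k' : V}
    (hxa : s(x, a) ∈ E) (hay : s(a, y) ∈ E) (hxy : x ≠ y)
    (hxk : s(x, k) ∈ E) (hyk : s(y, k') ∈ E) (hkk : k ≠ k')
    (P : (SimpleGraph.fromEdgeSet (E : Set (Sym2 V))).Walk k k') (hP : P.IsPath)
    (hin : ∀ r ∈ P.support, r ≠ x ∧ r ≠ a ∧ r ≠ y) {v : V}
    (hv : v = x ∨ v = a ∨ v = y) : Cov5 E {v} := by
  have a2 := adj_of hE hxa
  have a3 := adj_of hE hxk
  have a4 := adj_of hE hyk
  have n2 := ne_of hE hxa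
  have n3 := ne_of hE hay
  refine cyc5 (SimpleGraph.Walk.cons a2.symm
    (SimpleGraph.Walk.cons a3 (P.concat a4.symm))) ?_ ?_ hay ?_
  · rw [SimpleGraph.Walk.cons_isPath_iff, SimpleGraph.Walk.cons_isPath_iff]
    simp only [SimpleGraph.Walk.support_cons, SimpleGraph.Walk.support_concat, List.mem_cons,
      List.mem_append, List.mem_nil_iff, or_false, List.mem_singleton]
    refine ⟨⟨hP.concat (fun h => (hin y h).2.2 rfl) a4.symm, ?_⟩, ?_⟩
    · rintro (h | h)
      · exact (hin x h).1 rfl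
      · exact hxy h
    · rintro (h | h | h)
      · exact n2 h.symm
      · exact (hin a h).2.1 rfl
      · exact n3 h
  · simp only [SimpleGraph.Walk.length_cons, SimpleGraph.Walk.length_concat]
    have : P.length ≠ 0 := fun h => hkk (SimpleGraph.Walk.eq_of_length_eq_zero h)
    omega
  · simp only [SimpleGraph.Walk.support_cons, SimpleGraph.Walk.support_concat, List.mem_cons,
      List.mem_append, List.mem_nil_iff, or_false, List.mem_singleton]
    tauto

/-- explicit five-cycle `a b c d e` -/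
theorem five {E : Finset (Sym2 V)} (hE : ∀ e ∈ E, ¬ e.IsDiag) {a b c d e : V}
    (hab : s(a, b) ∈ E) (hbc : s(b, c) ∈ E) (hcd : s(c, d) ∈ E) (hde : s(d, e) ∈ E)
    (hea : s(e, a) ∈ E) (hac : a ≠ c) (had : a ≠ d) (hbd : b ≠ d) (hbe : b ≠ e) (hce : c ≠ e)
    {v : V} (hv : v = a ∨ v = b ∨ v = c ∨ v = d ∨ v = e) : Cov5 E {v} := by
  have n1 := ne_of hE hab
  have n2 := ne_of hE hbc
  have n3 := ne_of hE hcd
  have n4 := ne_of hE hde
  have n5 := ne_of hE hea
  rw [Sym2.eq_swap] at hea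
  refine cyc5 (SimpleGraph.Walk.cons (adj_of hE hab) (SimpleGraph.Walk.cons (adj_of hE hbc)
    (SimpleGraph.Walk.cons (adj_of hE hcd) (SimpleGraph.Walk.cons (adj_of hE hde)
      SimpleGraph.Walk.nil)))) ?_ ?_ hea ?_
  · simp only [SimpleGraph.Walk.cons_isPath_iff, SimpleGraph.Walk.support_cons,
      SimpleGraph.Walk.support_nil, List.mem_cons, List.mem_nil_iff, or_false,
      List.mem_singleton, not_or]
    exact ⟨⟨⟨⟨SimpleGraph.Walk.IsPath.nil, n4⟩, n3, hce⟩, n2, hbd, hbe⟩, n1, hac, had, n5.symm⟩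
  · simp
  · simp only [SimpleGraph.Walk.support_cons, SimpleGraph.Walk.support_nil, List.mem_cons,
      List.mem_nil_iff, or_false, List.mem_singleton]
    tauto

/-- explicit six-cycle `a b c d e f` -/
theorem six {E : Finset (Sym2 V)} (hE : ∀ e ∈ E, ¬ e.IsDiag) {a b c d e f : V}
    (hab : s(a, b) ∈ E) (hbc : s(b, c) ∈ E) (hcd : s(c, d) ∈ E) (hde : s(d, e) ∈ E)
    (hef : s(e, f) ∈ E) (hfa : s(f, a) ∈ E) (hac : a ≠ c) (had : a ≠ d) (hae : a ≠ e)
    (hbd : b ≠ d) (hbe : b ≠ e) (hbf : b ≠ f) (hce : c ≠ e) (hcf : c ≠ f) (hdf : d ≠ f) :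
    Cov5 E {a} := by
  have n1 := ne_of hE hab
  have n2 := ne_of hE hbc
  have n3 := ne_of hE hcd
  have n4 := ne_of hE hde
  have n5 := ne_of hE hef
  have n6 := ne_of hE hfa
  rw [Sym2.eq_swap] at hfa
  refine cyc5 (SimpleGraph.Walk.cons (adj_of hE hab) (SimpleGraph.Walk.cons (adj_of hE hbc)
    (SimpleGraph.Walk.cons (adj_of hE hcd) (SimpleGraph.Walk.cons (adj_of hE hde)
      (SimpleGraph.Walk.cons (adj_of hE hef) SimpleGraph.Walk.nil))))) ?_ ?_ hfa ?_
  · simp only [SimpleGraph.Walk.cons_isPath_iff, SimpleGraph.Walk.support_cons,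
      SimpleGraph.Walk.support_nil, List.mem_cons, List.mem_nil_iff, or_false,
      List.mem_singleton, not_or]
    exact ⟨⟨⟨⟨⟨SimpleGraph.Walk.IsPath.nil, n5⟩, n4, hdf⟩, n3, hce, hcf⟩, n2, hbd, hbe, hbf⟩,
      n1, hac, had, hae, n6.symm⟩
  · simp
  · simp

end H32L5
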