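import Pool.Agent.Lib.H32L5.B

/-!
# H32L5, file C: the 2-connected graphs with a vertex on no cycle of length at least five
-/

set_option autoImplicit false
set_option linter.unusedSectionVars false

namespace H32L5

open Finset H98M H85TF

variable {V : Type*} [DecidableEq V]

/-- `m` is in the component of `z` outside `C`. -/
def Kc (E : Finset (Sym2 V)) (C : Finset V) (z m : V) : Prop :=
  ∃ p : (SimpleGraph.fromEdgeSet (E : Set (Sym2 V))).Walk z m, ∀ r ∈ p.support, r ∉ C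

theorem kc_self {E : Finset (Sym2 V)} {C : Finset V} {z : V} (h : z ∉ C) : Kc E C z z :=
  ⟨SimpleGraph.Walk.nil, fun r hr => by
    rw [SimpleGraph.Walk.support_nil, List.mem_singleton] at hr
    exact hr ▸ h⟩

theorem kc_not {E : Finset (Sym2 V)} {C : Finset V} {z m : V} (h : Kc E C z m) : m ∉ C := by
  obtain ⟨p, hp⟩ := h
  exact hp m p.end_mem_support

theorem kc_step {E : Finset (Sym2 V)} (hE : ∀ e ∈ E, ¬ e.IsDiag) {C : Finset V} {z m m' : V}
    (h : Kc E C z m) (hm : s(m, m') ∈ E) (hC : m' ∉ C) : Kc E C z m' := by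
  obtain ⟨p, hp⟩ := h
  refine ⟨p.concat (adj_of hE hm), fun r hr => ?_⟩
  rw [SimpleGraph.Walk.support_concat, List.mem_append, List.mem_singleton] at hr
  rcases hr with hr | hr
  · exact hp r hr
  · exact hr ▸ hC

theorem kc_path {E : Finset (Sym2 V)} {C : Finset V} {z k k' : V}
    (h : Kc E C z k) (h' : Kc E C z k') :
    ∃ P : (SimpleGraph.fromEdgeSet (E : Set (Sym2 V))).Walk k k', P.IsPath ∧
      ∀ r ∈ P.support, r ∉ C := by
  obtain ⟨p, hp⟩ := h
  obtain ⟨p', hp'⟩ := h'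
  refine ⟨(p.reverse.append p').bypass, SimpleGraph.Walk.bypass_isPath _, fun r hr => ?_⟩
  have h1 := SimpleGraph.Walk.support_bypass_subset_support _ hr
  rw [SimpleGraph.Walk.mem_support_append_iff, SimpleGraph.Walk.support_reverse,
    List.mem_reverse] at h1
  rcases h1 with h1 | h1
  · exact hp r h1
  · exact hp' r h1

variable [Fintype V]

/-- Every component outside `C` has a neighbour in `C` different from `x₀`. -/
theorem kc_nbr {E : Finset (Sym2 V)} (hE : ∀ e ∈ E, ¬ e.IsDiag)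
    (hcut : ∀ z, ¬ Disc (univ.erase z) E) {C : Finset V} {z : V} (hz : z ∉ C) {x₀ c₀ : V}
    (hx₀ : x₀ ∈ C) (hc₀ : c₀ ∈ C) (hne : c₀ ≠ x₀) :
    ∃ x ∈ C, x ≠ x₀ ∧ ∃ k, Kc E C z k ∧ s(x, k) ∈ E := by
  classical
  by_contra hcon
  push Not at hcon
  refine hcut x₀ ⟨univ.filter fun m => Kc E C z m,
    (univ.erase x₀).filter fun m => ¬ Kc E C z m, ⟨z, mem_filter.2 ⟨mem_univ _, kc_self hz⟩⟩,
    ⟨c₀, mem_filter.2 ⟨mem_erase.2 ⟨hne, mem_univ _⟩, fun h => kc_not h hc₀⟩⟩, ?_, ?_, ?_⟩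
  · rw [disjoint_left]
    intro m h1 h2
    exact (mem_filter.1 h2).2 (mem_filter.1 h1).2
  · ext m
    rw [mem_union, mem_filter, mem_filter, mem_erase]
    constructor
    · rintro (⟨-, h⟩ | h)
      · exact ⟨fun e => kc_not h (e ▸ hx₀), mem_univ _⟩
      · exact h.1
    · intro h
      by_cases h1 : Kc E C z m
      · exact Or.inl ⟨mem_univ _, h1⟩
      · exact Or.inr ⟨h, h1⟩
  · intro m hm m' hm' he
    have h1 := (mem_filter.1 hm).2
    obtain ⟨h2, h3⟩ := mem_filter.1 hm'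
    by_cases hC : m' ∈ C
    · exact hcon m' hC (mem_erase.1 h2).1 m h1 (by rw [Sym2.eq_swap]; exact he)
    · exact h3 (kc_step hE h1 he hC)

/-- If the component is not `{k₀}`, another member of it has a neighbour in `C`. -/
theorem kc_other {E : Finset (Sym2 V)} (hE : ∀ e ∈ E, ¬ e.IsDiag)
    (hcut : ∀ z, ¬ Disc (univ.erase z) E) {C : Finset V} {z k₀ m₀ c₀ : V}
    (hk : Kc E C z k₀) (hm : Kc E C z m₀) (hne : m₀ ≠ k₀) (hc₀ : c₀ ∈ C) :
    ∃ m, Kc E C z m ∧ m ≠ k₀ ∧ ∃ c ∈ C, s(c, m) ∈ E := by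
  classical
  by_contra hcon
  push Not at hcon
  refine hcut k₀ ⟨(univ.erase k₀).filter fun m => Kc E C z m,
    (univ.erase k₀).filter fun m => ¬ Kc E C z m,
    ⟨m₀, mem_filter.2 ⟨mem_erase.2 ⟨hne, mem_univ _⟩, hm⟩⟩,
    ⟨c₀, mem_filter.2 ⟨mem_erase.2 ⟨fun e => kc_not hk (e ▸ hc₀), mem_univ _⟩,
      fun h => kc_not h hc₀⟩⟩,
    disjoint_filter_filter_not _ _ _, filter_union_filter_not_eq _ _, ?_⟩
  intro m h1 m' h2 he
  obtain ⟨h3, h4⟩ := mem_filter.1 h1
  obtain ⟨h5, h6⟩ := mem_filter.1 h2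
  by_cases hC : m' ∈ C
  · exact hcon m h4 (mem_erase.1 h3).1 m' hC (by rw [Sym2.eq_swap]; exact he)
  · exact h6 (kc_step hE h4 he hC)

/-- A four-cycle through `v`. -/
theorem four {E : Finset (Sym2 V)} (hE : ∀ e ∈ E, ¬ e.IsDiag)
    (h4 : 4 ≤ Fintype.card V) (hc : ¬ Disc univ E) (hcut : ∀ z, ¬ Disc (univ.erase z) E) {v : V}
    (hv : ¬ Cov5 E {v}) :
    ∃ a u b, s(v, a) ∈ E ∧ s(a, u) ∈ E ∧ s(u, b) ∈ E ∧ s(b, v) ∈ E ∧ v ≠ u ∧ a ≠ b := by
  classical
  obtain ⟨u, hu⟩ : ∃ u, s(v, u) ∈ E := by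
    by_contra hcon
    push Not at hcon
    refine hc ⟨{v}, univ.erase v, singleton_nonempty v, ?_, ?_, ?_, ?_⟩
    · rw [← card_pos, card_erase_of_mem (mem_univ _), card_univ]
      omega
    · simp
    · ext x
      simp
    · intro x hx y _
      rw [mem_singleton.1 hx]
      exact hcon y
  have huv : v ≠ u := ne_of hE hu
  obtain ⟨w, hwu, hw⟩ : ∃ w, w ≠ u ∧ s(v, w) ∈ E := by
    by_contra hcon
    push Not at hcon
    refine hcut u ⟨{v}, (univ.erase u).erase v, singleton_nonempty v, ?_, ?_, ?_, ?_⟩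
    · rw [← card_pos, card_erase_of_mem (mem_erase.2 ⟨huv, mem_univ _⟩),
        card_erase_of_mem (mem_univ _), card_univ]
      omega
    · simp
    · ext x
      simp only [mem_union, mem_singleton, mem_erase, mem_univ, and_true]
      constructor
      · rintro (rfl | h)
        · exact huv
        · exact h.2
      · intro h
        by_cases hx : x = v
        · exact Or.inl hx
        · exact Or.inr ⟨hx, h⟩
    · intro x hx y hy
      rw [mem_singleton.1 hx]
      rw [mem_erase, mem_erase] at hy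
      exact hcon y hy.2.1
  have hwv : v ≠ w := ne_of hE hw
  obtain ⟨p, hp, hpU⟩ := path_of_not_disc (hcut v) (b := u) (d := w)
    (mem_erase.2 ⟨Ne.symm huv, mem_univ _⟩) (mem_erase.2 ⟨Ne.symm hwv, mem_univ _⟩)
  have hvp : v ∉ p.support := fun h => (mem_erase.1 (hpU v h)).1 rfl
  rcases Nat.lt_or_ge p.length 3 with hl | hl
  · match p, hp, hpU, hvp, hl with
    | SimpleGraph.Walk.nil, _, _, _, _ => exact absurd rfl hwu
    | SimpleGraph.Walk.cons (v := m) h SimpleGraph.Walk.nil, _, _, _, _ =>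
      -- triangle
      have huw : s(u, m) ∈ E := by
        rw [SimpleGraph.fromEdgeSet_adj] at h
        exact_mod_cast h.1
      obtain ⟨z, hz⟩ : ∃ z, z ∉ ({v, u, m} : Finset V) := by
        by_contra hcon
        push Not at hcon
        have h1 : (univ : Finset V) ⊆ {v, u, m} := fun x _ => hcon x
        have h2 := card_le_card h1
        have h3 : ({v, u, m} : Finset V).card ≤ 3 := card_le_three
        rw [card_univ] at h2
        omega
      have hvC : v ∈ ({v, u, m} : Finset V) := by simp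
      have huC : u ∈ ({v, u, m} : Finset V) := by simp
      obtain ⟨x, hx, -, k, hk, hxk⟩ := kc_nbr hE hcut hz hvC huC (Ne.symm huv)
      obtain ⟨c, hcC, hcx⟩ : ∃ c ∈ ({v, u, m} : Finset V), c ≠ x := by
        by_cases h1 : v = x
        · exact ⟨u, huC, fun e => huv (h1.trans e.symm)⟩
        · exact ⟨v, hvC, h1⟩
      obtain ⟨y, hy, hyx, k', hk', hyk⟩ := kc_nbr hE hcut hz hx hcC hcx
      -- the third vertex
      obtain ⟨t, hxt, hty, hv3, hCt⟩ : ∃ t, s(x, t) ∈ E ∧ s(t, y) ∈ E ∧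
          (v = x ∨ v = t ∨ v = y) ∧ t ∈ ({v, u, m} : Finset V) := by
        have e1 : s(u, v) ∈ E := by rw [Sym2.eq_swap]; exact hu
        have e2 : s(m, v) ∈ E := by rw [Sym2.eq_swap]; exact hw
        have e3 : s(m, u) ∈ E := by rw [Sym2.eq_swap]; exact huw
        simp only [mem_insert, mem_singleton] at hx hy ⊢
        rcases hx with rfl | rfl | rfl <;> rcases hy with rfl | rfl | rfl
        · exact absurd rfl hyx
        · exact ⟨m, hw, e3, Or.inl rfl, by simp⟩
        · exact ⟨u, hu, huw, Or.inl rfl, by simp⟩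
        · exact ⟨m, huw, e2, Or.inr (Or.inr rfl), by simp⟩
        · exact absurd rfl hyx
        · exact ⟨v, e1, hw, Or.inr (Or.inl rfl), by simp⟩
        · exact ⟨u, e3, e1, Or.inr (Or.inr rfl), by simp⟩
        · exact ⟨v, e2, hu, Or.inr (Or.inl rfl), by simp⟩
        · exact absurd rfl hyx
      by_cases hkk : k = k'
      · subst hkk
        have hkx : s(k, x) ∈ E := by rw [Sym2.eq_swap]; exact hxk
        have hky : s(k, y) ∈ E := by rw [Sym2.eq_swap]; exact hyk
        have htx : s(t, x) ∈ E := by rw [Sym2.eq_swap]; exact hxt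
        have hyt : s(y, t) ∈ E := by rw [Sym2.eq_swap]; exact hty
        have htk : t ≠ k := fun e => kc_not hk (e ▸ hCt)
        rcases hv3 with rfl | rfl | rfl
        · exact ⟨t, y, k, hxt, hty, hyk, hkx, hyx.symm, htk⟩
        · exact ⟨x, k, y, htx, hxk, hky, hyt, htk, hyx.symm⟩
        · exact ⟨t, x, k, hyt, htx, hxk, hky, hyx, htk⟩
      · obtain ⟨P, hP, hPC⟩ := kc_path hk hk'
        exact absurd (lemB hE hxt hty hyx.symm hxk hyk hkk P hP (fun r hr =>
          ⟨fun e => hPC r hr (e ▸ hx), fun e => hPC r hr (e ▸ hCt), fun e => hPC r hr (e ▸ hy)⟩)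
          hv3) hv
    | SimpleGraph.Walk.cons (v := m) h (SimpleGraph.Walk.cons (v := w') h' SimpleGraph.Walk.nil),
        _, _, hvp, _ =>
      rw [SimpleGraph.fromEdgeSet_adj] at h h'
      refine ⟨u, m, w', hu, by exact_mod_cast h.1, by exact_mod_cast h'.1,
        by rw [Sym2.eq_swap]; exact hw, ?_, Ne.symm hwu⟩
      intro e
      exact hvp (by simp [e])
    | SimpleGraph.Walk.cons _ (SimpleGraph.Walk.cons _ (SimpleGraph.Walk.cons _ _)), _, _, _, hl =>
      simp only [SimpleGraph.Walk.length_cons] at hl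
      omega
  · refine absurd (cyc5 (SimpleGraph.Walk.cons (adj_of hE hu) p) ?_ ?_ hw (v := v) (by simp)) hv
    · rw [SimpleGraph.Walk.cons_isPath_iff]
      exact ⟨hp, hvp⟩
    · rw [SimpleGraph.Walk.length_cons]
      omega

end H32L5
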