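import Pool.Agent.Lib.H32L5.C

/-!
# H32L5, file D: the classification
-/

set_option autoImplicit false
set_option linter.unusedSectionVars false

namespace H32L5

open Finset H98M H85TF

variable {V : Type*} [DecidableEq V] [Fintype V]

/-- `z` has exactly the neighbours `x`, `y`. -/
def Ty (E : Finset (Sym2 V)) (x y z : V) : Prop :=
  s(x, z) ∈ E ∧ s(y, z) ∈ E ∧ ∀ m, s(z, m) ∈ E → m = x ∨ m = y

/-- `x a y b` a four-cycle, `v` one of `x`, `a`, `y`; the component of `z` outside it has the neighbours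
`x`, `y` only. -/
theorem ty_of {E : Finset (Sym2 V)} (hE : ∀ e ∈ E, ¬ e.IsDiag)
    (hcut : ∀ z, ¬ Disc (univ.erase z) E) {v x a y : V} {C : Finset V}
    (hxa : s(x, a) ∈ E) (hay : s(a, y) ∈ E) (hxy : x ≠ y) (hvx : v = x ∨ v = a ∨ v = y)
    (hv : ¬ Cov5 E {v}) (hx : x ∈ C) (ha : a ∈ C) (hy : y ∈ C) {z : V} (hz : z ∉ C)
    (h1 : ∃ k, Kc E C z k ∧ s(x, k) ∈ E) (h2 : ∃ k, Kc E C z k ∧ s(y, k) ∈ E)
    (h3 : ∀ c ∈ C, c ≠ x → c ≠ y → ¬ ∃ k, Kc E C z k ∧ s(c, k) ∈ E) : Ty E x y z := by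
  obtain ⟨k, hk, hxk⟩ := h1
  obtain ⟨k', hk', hyk⟩ := h2
  have huniq : ∀ m m', Kc E C z m → Kc E C z m' → s(x, m) ∈ E → s(y, m') ∈ E → m = m' := by
    intro m m' hm hm' e1 e2
    by_contra hne
    obtain ⟨P, hP, hPC⟩ := kc_path hm hm'
    exact hv (lemB hE hxa hay hxy e1 e2 hne P hP (fun r hr =>
      ⟨fun e => hPC r hr (e ▸ hx), fun e => hPC r hr (e ▸ ha), fun e => hPC r hr (e ▸ hy)⟩) hvx)
  have hkk := huniq k k' hk hk' hxk hyk
  subst hkk
  have hall : ∀ m, Kc E C z m → m = k := by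
    intro m₀ hm₀
    by_contra hne
    obtain ⟨m, hm, hmk, c, hc, hcm⟩ := kc_other hE hcut hk hm₀ hne hx
    by_cases hcx : c = x
    · subst hcx
      exact hmk (huniq m k hm hk hcm hyk)
    · by_cases hcy : c = y
      · subst hcy
        exact hmk (huniq k m hk hm hxk hcm).symm
      · exact h3 c hc hcx hcy ⟨m, hm, hcm⟩
  have hzk := hall z (kc_self hz)
  subst hzk
  refine ⟨hxk, hyk, fun m hm => ?_⟩
  by_cases hmC : m ∈ C
  · by_contra hcon
    push Not at hcon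
    exact h3 m hmC hcon.1 hcon.2 ⟨z, hk, by rw [Sym2.eq_swap]; exact hm⟩
  · exact absurd (hall m (kc_step hE hk hm hmC)).symm (ne_of hE hm)

/-- THE CLASSIFICATION. -/
theorem class5 {E : Finset (Sym2 V)} (hE : ∀ e ∈ E, ¬ e.IsDiag)
    (h5 : 5 ≤ Fintype.card V) (hc : ¬ Disc univ E) (hcut : ∀ z, ¬ Disc (univ.erase z) E) (v : V)
    (hv : ¬ Cov5 E {v}) :
    ∃ c1 c2, c1 ≠ c2 ∧ ∀ x y, x ≠ c1 → x ≠ c2 → y ≠ c1 → y ≠ c2 → s(x, y) ∉ E := by
  classical
  obtain ⟨a, u, b, hva, hau, hub, hbv, hvu, hab⟩ := four hE (by omega) hc hcut hv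
  have hav : s(a, v) ∈ E := by rw [Sym2.eq_swap]; exact hva
  have hua : s(u, a) ∈ E := by rw [Sym2.eq_swap]; exact hau
  have hbu : s(b, u) ∈ E := by rw [Sym2.eq_swap]; exact hub
  have hvb : s(v, b) ∈ E := by rw [Sym2.eq_swap]; exact hbv
  have nva := ne_of hE hva
  have nau := ne_of hE hau
  have nub := ne_of hE hub
  have nbv := ne_of hE hbv
  obtain ⟨C, hC⟩ : ∃ C : Finset V, C = {v, a, u, b} := ⟨_, rfl⟩
  have hvC : v ∈ C := by rw [hC]; simp
  have haC : a ∈ C := by rw [hC]; simp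
  have huC : u ∈ C := by rw [hC]; simp
  have hbC : b ∈ C := by rw [hC]; simp
  have hmC : ∀ x ∈ C, x = v ∨ x = a ∨ x = u ∨ x = b := by
    intro x hx
    rw [hC] at hx
    simpa using hx
  have hCn : ∀ x, x ∉ C → x ≠ v ∧ x ≠ a ∧ x ≠ u ∧ x ≠ b := fun x hx =>
    ⟨fun e => hx (e ▸ hvC), fun e => hx (e ▸ haC), fun e => hx (e ▸ huC), fun e => hx (e ▸ hbC)⟩
  -- the two types
  have htype : ∀ z, z ∉ C → Ty E v u z ∨ Ty E a b z := by
    intro z hz
    have key : ∀ {x p q y k k' : V}, s(x, p) ∈ E → s(p, q) ∈ E → s(q, y) ∈ E → x ≠ q → x ≠ y →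
        p ≠ y → x ∈ C → p ∈ C → q ∈ C → y ∈ C → (v = x ∨ v = p ∨ v = q ∨ v = y) →
        Kc E C z k → Kc E C z k' → s(x, k) ∈ E → s(y, k') ∈ E → False := by
      intro x p q y k k' e1 e2 e3 n1 n2 n3 hx hp hq hy hvv hk hk' e4 e5
      obtain ⟨P, hP, hPC⟩ := kc_path hk hk'
      exact hv (lemA hE e1 e2 e3 n1 n2 n3 e4 e5 P hP (fun r hr =>
        ⟨fun e => hPC r hr (e ▸ hx), fun e => hPC r hr (e ▸ hp), fun e => hPC r hr (e ▸ hq),
          fun e => hPC r hr (e ▸ hy)⟩) hvv)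
    obtain ⟨Ad, hAd⟩ : ∃ Ad : V → Prop, ∀ c, Ad c ↔ ∃ k, Kc E C z k ∧ s(c, k) ∈ E :=
      ⟨_, fun _ => Iff.rfl⟩
    have n1 : ¬ (Ad v ∧ Ad a) := by
      rintro ⟨h1, h2⟩
      obtain ⟨k, hk, e1⟩ := (hAd v).1 h1
      obtain ⟨k', hk', e2⟩ := (hAd a).1 h2
      exact key hvb hbu hua hvu nva (Ne.symm hab) hvC hbC huC haC (Or.inl rfl) hk hk' e1 e2
    have n2 : ¬ (Ad a ∧ Ad u) := by
      rintro ⟨h1, h2⟩
      obtain ⟨k, hk, e1⟩ := (hAd a).1 h1
      obtain ⟨k', hk', e2⟩ := (hAd u).1 h2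
      exact key hav hvb hbu hab nau hvu haC hvC hbC huC (Or.inr (Or.inl rfl)) hk hk' e1 e2
    have n3 : ¬ (Ad u ∧ Ad b) := by
      rintro ⟨h1, h2⟩
      obtain ⟨k, hk, e1⟩ := (hAd u).1 h1
      obtain ⟨k', hk', e2⟩ := (hAd b).1 h2
      exact key hua hav hvb (Ne.symm hvu) nub hab huC haC hvC hbC (Or.inr (Or.inr (Or.inl rfl)))
        hk hk' e1 e2
    have n4 : ¬ (Ad b ∧ Ad v) := by
      rintro ⟨h1, h2⟩
      obtain ⟨k, hk, e1⟩ := (hAd b).1 h1
      obtain ⟨k', hk', e2⟩ := (hAd v).1 h2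
      exact key hbu hua hav (Ne.symm hab) nbv (Ne.symm hvu) hbC huC haC hvC
        (Or.inr (Or.inr (Or.inr rfl))) hk hk' e1 e2
    have hnb : ∀ x₀ c₀, x₀ ∈ C → c₀ ∈ C → c₀ ≠ x₀ → ∃ x, x ≠ x₀ ∧ Ad x ∧
        (x = v ∨ x = a ∨ x = u ∨ x = b) := by
      intro x₀ c₀ h1 h2 h3
      obtain ⟨x, hx, hne, h4⟩ := kc_nbr hE hcut hz h1 h2 h3
      exact ⟨x, hne, (hAd x).2 h4, hmC x hx⟩
    have m1 : Ad a ∨ Ad u ∨ Ad b := by
      obtain ⟨x, h1, h2, rfl | rfl | rfl | rfl⟩ := hnb v a hvC haC nva.symm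
      · exact absurd rfl h1
      · exact Or.inl h2
      · exact Or.inr (Or.inl h2)
      · exact Or.inr (Or.inr h2)
    have m2 : Ad v ∨ Ad u ∨ Ad b := by
      obtain ⟨x, h1, h2, rfl | rfl | rfl | rfl⟩ := hnb a v haC hvC nva
      · exact Or.inl h2
      · exact absurd rfl h1
      · exact Or.inr (Or.inl h2)
      · exact Or.inr (Or.inr h2)
    have m3 : Ad v ∨ Ad a ∨ Ad b := by
      obtain ⟨x, h1, h2, rfl | rfl | rfl | rfl⟩ := hnb u v huC hvC hvu
      · exact Or.inl h2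
      · exact Or.inr (Or.inl h2)
      · exact absurd rfl h1
      · exact Or.inr (Or.inr h2)
    have m4 : Ad v ∨ Ad a ∨ Ad u := by
      obtain ⟨x, h1, h2, rfl | rfl | rfl | rfl⟩ := hnb b v hbC hvC nbv.symm
      · exact Or.inl h2
      · exact Or.inr (Or.inl h2)
      · exact Or.inr (Or.inr h2)
      · exact absurd rfl h1
    have hcase : (Ad v ∧ Ad u ∧ ¬ Ad a ∧ ¬ Ad b) ∨ (Ad a ∧ Ad b ∧ ¬ Ad v ∧ ¬ Ad u) := by
      by_cases hA : Ad a
      · have q1 : ¬ Ad v := fun h => n1 ⟨h, hA⟩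
        have q2 : ¬ Ad u := fun h => n2 ⟨hA, h⟩
        exact Or.inr ⟨hA, (m2.resolve_left q1).resolve_left q2, q1, q2⟩
      · have q3 : ¬ Ad b := by
          intro h
          have q1 : ¬ Ad v := fun h' => n4 ⟨h, h'⟩
          have q2 : ¬ Ad u := fun h' => n3 ⟨h', h⟩
          exact (((m4.resolve_left q1).resolve_left hA) |> q2)
        exact Or.inl ⟨(m3.resolve_right (not_or.2 ⟨hA, q3⟩)),
          (m1.resolve_left hA).resolve_right q3, hA, q3⟩
    rcases hcase with ⟨h1, h2, h3, h4⟩ | ⟨h1, h2, h3, h4⟩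
    · left
      refine ty_of hE hcut hva hau hvu (Or.inl rfl) hv hvC haC huC hz ((hAd v).1 h1)
        ((hAd u).1 h2) ?_
      intro c hc1 hc2 hc3 hc4
      rcases hmC c hc1 with rfl | rfl | rfl | rfl
      · exact hc2 rfl
      · exact h3 ((hAd _).2 hc4)
      · exact hc3 rfl
      · exact h4 ((hAd _).2 hc4)
    · right
      refine ty_of hE hcut hav hvb hab (Or.inr (Or.inl rfl)) hv haC hvC hbC hz ((hAd a).1 h1)
        ((hAd b).1 h2) ?_
      intro c hc1 hc2 hc3 hc4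
      rcases hmC c hc1 with rfl | rfl | rfl | rfl
      · exact h3 ((hAd _).2 hc4)
      · exact hc2 rfl
      · exact h4 ((hAd _).2 hc4)
      · exact hc3 rfl
  -- not both types
  have hboth : ∀ z z', z ∉ C → z' ∉ C → Ty E v u z → Ty E a b z' → False := by
    intro z z' hz hz' ⟨t1, t2, t3⟩ ⟨t4, t5, t6⟩
    obtain ⟨z1, z2, z3, z4⟩ := hCn z hz
    obtain ⟨w1, w2, w3, w4⟩ := hCn z' hz'
    have hzz : z ≠ z' := by
      rintro rfl
      rcases t3 a (by rw [Sym2.eq_swap]; exact t4) with h | h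
      · exact nva h.symm
      · exact nau h
    exact hv (six hE t1 (by rw [Sym2.eq_swap]; exact t2) hub t5 (by rw [Sym2.eq_swap]; exact t4)
      hav hvu nbv.symm w1.symm z4 hzz z2 w3.symm nau.symm hab.symm)
  obtain ⟨z₀, hz₀⟩ : ∃ z, z ∉ C := by
    by_contra hcon
    push Not at hcon
    have h1 : (univ : Finset V) ⊆ C := fun x _ => hcon x
    have h2 := card_le_card h1
    have h3 : C.card ≤ 4 := by rw [hC]; exact card_le_four
    rw [card_univ] at h2
    omega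
  obtain ⟨y1, y2, y3, y4⟩ := hCn z₀ hz₀
  rcases htype z₀ hz₀ with h | h
  · have hall : ∀ z, z ∉ C → Ty E v u z := fun z hz =>
      (htype z hz).resolve_right fun h' => hboth z₀ z hz₀ hz h h'
    have hnab : s(a, b) ∉ E := fun e => hv (five hE hva e hbu h.2.1
      (by rw [Sym2.eq_swap]; exact h.1) nbv.symm hvu nau y2.symm y4.symm (Or.inl rfl))
    refine ⟨v, u, hvu, fun x y hx1 hx2 hy1 hy2 he => ?_⟩
    by_cases hxC : x ∈ C
    · by_cases hyC : y ∈ C
      · rcases hmC x hxC with rfl | rfl | rfl | rfl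
        · exact hx1 rfl
        · rcases hmC y hyC with rfl | rfl | rfl | rfl
          · exact hy1 rfl
          · exact ne_of hE he rfl
          · exact hy2 rfl
          · exact hnab he
        · exact hx2 rfl
        · rcases hmC y hyC with rfl | rfl | rfl | rfl
          · exact hy1 rfl
          · exact hnab (by rw [Sym2.eq_swap]; exact he)
          · exact hy2 rfl
          · exact ne_of hE he rfl
      · rcases (hall y hyC).2.2 x (by rw [Sym2.eq_swap]; exact he) with h1 | h1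
        · exact hx1 h1
        · exact hx2 h1
    · rcases (hall x hxC).2.2 y he with h1 | h1
      · exact hy1 h1
      · exact hy2 h1
  · have hall : ∀ z, z ∉ C → Ty E a b z := fun z hz =>
      (htype z hz).resolve_left fun h' => hboth z z₀ hz hz₀ h' h
    have hnvu : s(v, u) ∉ E := fun e => hv (five hE hav e hub h.2.1
      (by rw [Sym2.eq_swap]; exact h.1) nau hab nbv.symm y1.symm y3.symm (Or.inr (Or.inl rfl)))
    refine ⟨a, b, hab, fun x y hx1 hx2 hy1 hy2 he => ?_⟩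
    by_cases hxC : x ∈ C
    · by_cases hyC : y ∈ C
      · rcases hmC x hxC with rfl | rfl | rfl | rfl
        · rcases hmC y hyC with rfl | rfl | rfl | rfl
          · exact ne_of hE he rfl
          · exact hy1 rfl
          · exact hnvu he
          · exact hy2 rfl
        · exact hx1 rfl
        · rcases hmC y hyC with rfl | rfl | rfl | rfl
          · exact hnvu (by rw [Sym2.eq_swap]; exact he)
          · exact hy1 rfl
          · exact ne_of hE he rfl
          · exact hy2 rfl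
        · exact hx2 rfl
      · rcases (hall y hyC).2.2 x (by rw [Sym2.eq_swap]; exact he) with h1 | h1
        · exact hx1 h1
        · exact hx2 h1
    · rcases (hall x hxC).2.2 y he with h1 | h1
      · exact hy1 h1
      · exact hy2 h1

end H32L5
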